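import Pool.Agent.H62.Lad7

namespace Pool.Agent.Results.MP_9e35a6_lc.Inter

open Pool.Agent.H38.NP Pool.Agent.H62.Lad

/-- If P ≠ NP, some finitely bounded structure has an NP-intermediate CSP. -/
theorem result (hP : ¬ ∀ L : Set (List Bool), InNP L → InP L) :
    ∃ (ar : List ℕ) (α : Type) (A : Str ar α),
      FinBounded A ∧ InNP (CSP A) ∧ ¬ InP (CSP A) ∧ ¬ NPComplete (CSP A) :=
  main hP

end Pool.Agent.Results.MP_9e35a6_lc.Inter
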